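import Mathlib

/-! Scatteredly continuous functions are Borel. -/

set_option autoImplicit false

open MeasureTheory Topology Filter Set

namespace Q41.HL

/-- scatteredly continuous functions: the restriction to every nonempty subset has a point of
continuity -/
def SC {X : Type} [TopologicalSpace X] (F : X → ℝ) : Prop :=
  ∀ A : Set X, A.Nonempty → ∃ a ∈ A, ContinuousWithinAt F A a

theorem sc_open {X : Type} [TopologicalSpace X] {F : X → ℝ} (hF : SC F) {A : Set X}
    (hA : A.Nonempty) :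
    ∃ V, IsOpen V ∧ (V ∩ A).Nonempty ∧ ∀ a ∈ V ∩ A, ContinuousWithinAt F A a := by
  by_contra hcon
  push Not at hcon
  set D : Set X := {a | a ∈ A ∧ ¬ ContinuousWithinAt F A a} with hD
  have hDne : D.Nonempty := by
    obtain ⟨a, ha, hn⟩ := hcon univ isOpen_univ (by simpa using hA)
    exact ⟨a, ha.2, hn⟩
  obtain ⟨x, hx, hcx⟩ := hF D hDne
  obtain ⟨hxA, hxn⟩ := hx
  rw [Metric.continuousWithinAt_iff'] at hxn
  push Not at hxn
  obtain ⟨ε, hε, hfr⟩ := hxn
  rw [Metric.continuousWithinAt_iff'] at hcx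
  have h1 := hcx (ε / 3) (by positivity)
  rw [eventually_nhdsWithin_iff] at h1
  obtain ⟨V, hVs, hVo, hxV⟩ := mem_nhds_iff.1 h1
  -- a point `y` of `V ∩ A` with a large jump
  have h3 := hfr.and_eventually (mem_nhdsWithin_of_mem_nhds (hVo.mem_nhds hxV))
  have h4 := h3.and_eventually (self_mem_nhdsWithin)
  obtain ⟨y, ⟨hy1, hyV⟩, hyA⟩ := h4.exists
  have hyc : ContinuousWithinAt F A y := by
    by_contra hn
    have := hVs hyV ⟨hyA, hn⟩
    linarith
  rw [Metric.continuousWithinAt_iff'] at hyc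
  have h5 := hyc (ε / 3) (by positivity)
  rw [eventually_nhdsWithin_iff] at h5
  obtain ⟨V', hV's, hV'o, hyV'⟩ := mem_nhds_iff.1 h5
  obtain ⟨d, ⟨⟨hdV, hdV'⟩, hdA⟩, hdn⟩ := hcon (V ∩ V') (hVo.inter hV'o) ⟨y, ⟨hyV, hyV'⟩, hyA⟩
  have e1 := hV's hdV' hdA
  have e2 := hVs hdV ⟨hdA, hdn⟩
  have := dist_triangle_left (F y) (F x) (F d)
  linarith

theorem sc_measurable {X : Type} [TopologicalSpace X] [SecondCountableTopology X]
    [MeasurableSpace X] [BorelSpace X] {F : X → ℝ} (hF : SC F) : Measurable F := by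
  set 𝒰 : Set (Set X) := {U | IsOpen U ∧ ∀ O : Set ℝ, IsOpen O → MeasurableSet (U ∩ F ⁻¹' O)}
    with h𝒰
  obtain ⟨T, hTc, hTs, hTu⟩ := TopologicalSpace.isOpen_sUnion_countable 𝒰 fun s hs => hs.1
  set W := ⋃₀ 𝒰 with hW
  have hWo : IsOpen W := isOpen_sUnion fun s hs => hs.1
  have hWm : ∀ O : Set ℝ, IsOpen O → MeasurableSet (W ∩ F ⁻¹' O) := by
    intro O hO
    rw [← hTu, sUnion_eq_biUnion, iUnion₂_inter]
    exact MeasurableSet.biUnion hTc fun s hs => (hTs hs).2 O hO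
  by_cases hC : (Wᶜ).Nonempty
  · exfalso
    obtain ⟨V, hVo, ⟨z, hzV, hzC⟩, hcont⟩ := sc_open hF hC
    have hVU : V ∈ 𝒰 := by
      refine ⟨hVo, fun O hO => ?_⟩
      have e : V ∩ F ⁻¹' O = (V ∩ (W ∩ F ⁻¹' O)) ∪ (V ∩ Wᶜ ∩ F ⁻¹' O) := by
        ext a
        simp only [mem_inter_iff, mem_union, mem_compl_iff]
        tauto
      rw [e]
      refine (hVo.measurableSet.inter (hWm O hO)).union ?_
      have hco : ContinuousOn F (V ∩ Wᶜ) := fun a ha =>
        (hcont a ha).mono inter_subset_right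
      obtain ⟨u, huo, hu⟩ := (continuousOn_iff'.1 hco) O hO
      rw [inter_comm (V ∩ Wᶜ), hu]
      exact huo.measurableSet.inter (hVo.measurableSet.inter hWo.measurableSet.compl)
    exact hzC ⟨V, hVU, hzV⟩
  · rw [not_nonempty_iff_eq_empty, compl_empty_iff] at hC
    apply measurable_of_isOpen
    intro O hO
    have := hWm O hO
    rwa [hC, univ_inter] at this

end Q41.HL
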