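import Mathlib

/-! Generic sequences in a Polish space. -/

set_option autoImplicit false

open MeasureTheory Topology Filter Set

namespace Q41.HL

theorem generic {Y : Type} [TopologicalSpace Y] [MeasurableSpace Y] [BorelSpace Y] {ι : Type}
    [Countable ι] (B : ι → Set Y) (hB : ∀ i, MeasurableSet (B i)) :
    ∃ G ∈ residual Y, ∀ i, ∃ U, IsOpen U ∧ ∀ q ∈ G, (q ∈ B i ↔ q ∈ U) := by
  choose U hU hBU using fun i => (hB i).residualEq_isOpen
  refine ⟨{q | ∀ i, (q ∈ B i ↔ q ∈ U i)}, ?_, fun i => ⟨U i, hU i, fun q hq => hq i⟩⟩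
  have : ∀ᶠ q in residual Y, ∀ i, (q ∈ B i ↔ q ∈ U i) := by
    rw [eventually_countable_forall]
    intro i
    filter_upwards [hBU i] with q hq
    exact iff_of_eq hq
  exact this

/-- the filter of the indices `j` with `q j` close to `q i` and `t (q j) > t (q i)` -/
def Fil {Z : Type} [TopologicalSpace Z] (t : Z → ℝ) (q : ℕ → Z) (i : ℕ) : Filter ℕ :=
  cofinite ⊓ comap q (𝓝 (q i)) ⊓ 𝓟 {j | t (q i) < t (q j)}

theorem exists_q {Z : Type} [TopologicalSpace Z] [PolishSpace Z] [Nonempty Z] {t : Z → ℝ}
    (ht : Continuous t)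
    (hNC : ∀ O : Set Z, IsOpen O → O.Nonempty → ∃ z ∈ O, ∃ z' ∈ O, t z < t z')
    {G : Set (ℕ → Z)} (hG : G ∈ residual (ℕ → Z)) :
    ∃ q : ℕ → Z, (∀ i j, q ∘ Equiv.swap i j ∈ G) ∧ ∀ i, (Fil t q i).NeBot := by
  -- swaps
  have h1 : ∀ᶠ q in residual (ℕ → Z), ∀ p : ℕ × ℕ, q ∘ Equiv.swap p.1 p.2 ∈ G := by
    rw [eventually_countable_forall]
    rintro ⟨i, j⟩
    have hh : Tendsto (Homeomorph.piCongrLeft (Y := fun _ : ℕ => Z) (Equiv.swap i j))
        (residual (ℕ → Z)) (residual (ℕ → Z)) :=
      tendsto_residual_of_isOpenMap (Homeomorph.continuous _) (Homeomorph.isOpenMap _)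
    have h2 := hh.eventually (p := fun q => q ∈ G) hG
    filter_upwards [h2] with q hq
    have e : (Homeomorph.piCongrLeft (Y := fun _ : ℕ => Z) (Equiv.swap i j)) q
        = q ∘ Equiv.swap i j := by
      funext k
      have := Equiv.piCongrLeft_apply_apply (fun _ : ℕ => Z) (Equiv.swap i j) q
        ((Equiv.swap i j) k)
      rw [Equiv.swap_apply_self] at this
      exact this
    rw [e] at hq
    exact hq
  -- accumulation
  have h3 : ∀ᶠ q in residual (ℕ → Z),
      ∀ p : (TopologicalSpace.countableBasis Z) × ℕ × Finset ℕ,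
        (∃ j, j ∉ p.2.2 ∧ q j ∈ (p.1 : Set Z) ∧ t (q p.2.1) < t (q j)) ∨
          q p.2.1 ∈ interior ((p.1 : Set Z)ᶜ) := by
    have : Countable (TopologicalSpace.countableBasis Z) :=
      (TopologicalSpace.countable_countableBasis Z).to_subtype
    rw [eventually_countable_forall]
    rintro ⟨⟨V, hV⟩, i, F⟩
    have hVo : IsOpen V := TopologicalSpace.isOpen_of_mem_countableBasis hV
    apply residual_of_dense_open
    · have e : {q : ℕ → Z | (∃ j, j ∉ F ∧ q j ∈ V ∧ t (q i) < t (q j)) ∨ q i ∈ interior Vᶜ}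
          = (⋃ (j : ℕ) (_ : j ∉ F), ({q : ℕ → Z | q j ∈ V} ∩ {q | t (q i) < t (q j)})) ∪
            {q | q i ∈ interior Vᶜ} := by
        ext q
        simp only [mem_ofPred_eq, mem_union, mem_iUnion, mem_inter_iff, exists_prop]
      change IsOpen {q : ℕ → Z | (∃ j, j ∉ F ∧ q j ∈ V ∧ t (q i) < t (q j)) ∨ q i ∈ interior Vᶜ}
      rw [e]
      refine IsOpen.union (isOpen_iUnion fun j => isOpen_iUnion fun _ => ?_) ?_
      · exact (hVo.preimage (continuous_apply j)).inter
          (isOpen_lt (ht.comp (continuous_apply i)) (ht.comp (continuous_apply j)))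
      · exact isOpen_interior.preimage (continuous_apply i)
    · rw [dense_iff_inter_open]
      intro W hW ⟨q0, hq0⟩
      classical
      obtain ⟨I, u, hu, hsub⟩ := isOpen_pi_iff.1 hW q0 hq0
      set O : Set Z := if i ∈ I then u i else univ with hO
      have hOo : IsOpen O := by
        rw [hO]; split_ifs with h
        · exact (hu i h).1
        · exact isOpen_univ
      have hqO : q0 i ∈ O := by
        rw [hO]; split_ifs with h
        · exact (hu i h).2
        · trivial
      have hOu : ∀ z ∈ O, i ∈ I → z ∈ u i := by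
        intro z hz h
        rw [hO, if_pos h] at hz
        exact hz
      by_cases hA : (O ∩ interior Vᶜ).Nonempty
      · obtain ⟨z, hzO, hzV⟩ := hA
        refine ⟨Function.update q0 i z, hsub ?_, Or.inr ?_⟩
        · intro l hl
          by_cases hli : l = i
          · subst hli
            rw [Function.update_self]
            exact hOu z hzO hl
          · rw [Function.update_of_ne hli]
            exact (hu l hl).2
        · rw [Function.update_self]; exact hzV
      · have hB : (O ∩ V).Nonempty := by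
          by_contra hne
          apply hA
          refine ⟨q0 i, hqO, ?_⟩
          rw [mem_interior]
          refine ⟨O, ?_, hOo, hqO⟩
          intro z hz hzV
          exact hne ⟨z, hz, hzV⟩
        obtain ⟨z, ⟨hzO, hzV⟩, z', ⟨hzO', hzV'⟩, hlt⟩ := hNC (O ∩ V) (hOo.inter hVo) hB
        obtain ⟨j, hj⟩ := Infinite.exists_notMem_finset (insert i (I ∪ F))
        simp only [Finset.mem_insert, Finset.mem_union, not_or] at hj
        obtain ⟨hji, hjI, hjF⟩ := hj
        refine ⟨Function.update (Function.update q0 i z) j z', hsub ?_, Or.inl ⟨j, hjF, ?_, ?_⟩⟩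
        · intro l hl
          have hlj : l ≠ j := fun h => hjI (h ▸ hl)
          rw [Function.update_of_ne hlj]
          by_cases hli : l = i
          · subst hli
            rw [Function.update_self]
            exact hOu z hzO hl
          · rw [Function.update_of_ne hli]
            exact (hu l hl).2
        · change Function.update (Function.update q0 i z) j z' j ∈ V
          rw [Function.update_self]; exact hzV'
        · change t (Function.update (Function.update q0 i z) j z' i)
            < t (Function.update (Function.update q0 i z) j z' j)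
          rw [Function.update_self, Function.update_of_ne (Ne.symm hji), Function.update_self]
          exact hlt
  obtain ⟨q, hq1, hq2⟩ := (dense_of_mem_residual (h1.and h3)).nonempty
  refine ⟨q, fun i j => hq1 (i, j), fun i => ?_⟩
  unfold Fil
  rw [inf_principal_neBot_iff]
  intro U hU
  obtain ⟨T1, hT1, T2, hT2, rfl⟩ := mem_inf_iff.1 hU
  obtain ⟨O, hO, hOT⟩ := mem_comap.1 hT2
  obtain ⟨O', hO's, hO'o, hqO'⟩ := mem_nhds_iff.1 hO
  obtain ⟨V, hV, hqV, hVO⟩ :=
    (TopologicalSpace.isBasis_countableBasis Z).exists_subset_of_mem_open hqO' hO'o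
  have hfin : (T1ᶜ).Finite := mem_cofinite.1 hT1
  rcases hq2 (⟨V, hV⟩, i, hfin.toFinset) with ⟨j, hj1, hj2, hj3⟩ | h
  · refine ⟨j, ⟨?_, ?_⟩, hj3⟩
    · simpa using hj1
    · exact hOT (hO's (hVO hj2))
  · exact absurd hqV (interior_subset h)

end Q41.HL
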