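import Pool.Agent.Q41.HL.Bor

/-! The Helly space and its elements given by finitely many atoms. -/

set_option autoImplicit false

open MeasureTheory Topology Filter Set

namespace Q41.HL

/-- the Helly space: nondecreasing functions from the unit interval to itself, with the topology of
pointwise convergence -/
abbrev Helly : Type := {f : unitInterval → unitInterval // Monotone f}

instance : CompactSpace Helly :=
  isCompact_iff_compactSpace.1 (isClosed_monotone (α := unitInterval)
    (β := unitInterval)).isCompact

/-- the indicator of `(p, ∞)` (flag `false`) or of `[p, ∞)` (flag `true`) -/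
noncomputable def ind (p : ℝ) (b : Bool) (s : ℝ) : ℝ :=
  match b with
  | true => if p ≤ s then 1 else 0
  | false => if p < s then 1 else 0

theorem ind_nonneg (p : ℝ) (b : Bool) (s : ℝ) : 0 ≤ ind p b s := by
  unfold ind
  cases b <;> simp only <;> split_ifs <;> norm_num

theorem ind_mono (p : ℝ) (b : Bool) {s s' : ℝ} (h : s ≤ s') : ind p b s ≤ ind p b s' := by
  unfold ind
  cases b <;> simp only <;> split_ifs <;> first | (exfalso; linarith) | norm_num

/-- the sum of the atoms -/
noncomputable def S (L : List (ℝ × ℝ × Bool)) (s : ℝ) : ℝ :=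
  (L.map fun a => |a.1| * ind a.2.1 a.2.2 s).sum

@[simp] theorem S_nil (s : ℝ) : S [] s = 0 := rfl

@[simp] theorem S_cons (a : ℝ × ℝ × Bool) (L : List (ℝ × ℝ × Bool)) (s : ℝ) :
    S (a :: L) s = |a.1| * ind a.2.1 a.2.2 s + S L s := by
  simp [S]

@[simp] theorem S_append (L L' : List (ℝ × ℝ × Bool)) (s : ℝ) :
    S (L ++ L') s = S L s + S L' s := by
  simp [S]

theorem S_nonneg (L : List (ℝ × ℝ × Bool)) (s : ℝ) : 0 ≤ S L s := by
  induction L with
  | nil => simp
  | cons a L ih =>
    rw [S_cons]
    have := mul_nonneg (abs_nonneg a.1) (ind_nonneg a.2.1 a.2.2 s)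
    linarith

theorem S_mono (L : List (ℝ × ℝ × Bool)) {s s' : ℝ} (h : s ≤ s') : S L s ≤ S L s' := by
  induction L with
  | nil => simp
  | cons a L ih =>
    rw [S_cons, S_cons]
    have := mul_le_mul_of_nonneg_left (ind_mono a.2.1 a.2.2 h) (abs_nonneg a.1)
    linarith

/-- the element of the Helly space with the given atoms -/
noncomputable def el (L : List (ℝ × ℝ × Bool)) : Helly :=
  ⟨fun s => ⟨min (S L s) 1, le_min (S_nonneg L s) zero_le_one, min_le_right _ _⟩, fun a b hab => by
    have : (a : ℝ) ≤ b := hab
    exact Subtype.mk_le_mk.2 (min_le_min_right 1 (S_mono L this))⟩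

theorem el_congr {L L' : List (ℝ × ℝ × Bool)} (h : ∀ s, S L s = S L' s) : el L = el L' := by
  apply Subtype.ext
  funext s
  apply Subtype.ext
  change min (S L s) 1 = min (S L' s) 1
  rw [h]

theorem tendsto_el {ι : Type} {l : Filter ι} {Ls : ι → List (ℝ × ℝ × Bool)}
    {L : List (ℝ × ℝ × Bool)} (h : ∀ s : ℝ, Tendsto (fun i => S (Ls i) s) l (𝓝 (S L s))) :
    Tendsto (fun i => el (Ls i)) l (𝓝 (el L)) := by
  rw [tendsto_subtype_rng, tendsto_pi_nhds]
  intro s
  rw [tendsto_subtype_rng]
  exact (h s).min tendsto_const_nhds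

theorem ind_right (t s : ℝ) : Tendsto (fun p => ind p false s) (𝓝[>] t) (𝓝 (ind t false s)) := by
  apply tendsto_const_nhds.congr'
  by_cases h : t < s
  · have : ∀ᶠ p in 𝓝[>] t, p < s := mem_nhdsWithin_of_mem_nhds (Iio_mem_nhds h)
    filter_upwards [this] with p hp
    simp only [ind, if_pos h, if_pos hp]
  · filter_upwards [self_mem_nhdsWithin] with p hp
    have hp' : t < p := hp
    simp only [ind, if_neg h]
    rw [if_neg (by linarith)]

theorem ind_left (t s : ℝ) : Tendsto (fun p => ind p false s) (𝓝[<] t) (𝓝 (ind t true s)) := by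
  apply tendsto_const_nhds.congr'
  by_cases h : t ≤ s
  · filter_upwards [self_mem_nhdsWithin] with p hp
    have hp' : p < t := hp
    simp only [ind, if_pos h]
    rw [if_pos (by linarith)]
  · push Not at h
    have : ∀ᶠ p in 𝓝[<] t, s < p := mem_nhdsWithin_of_mem_nhds (Ioi_mem_nhds h)
    filter_upwards [this] with p hp
    simp only [ind]
    rw [if_neg (by linarith), if_neg (by linarith)]

/-- moving an atom to the right limit -/
theorem el_right (L L' : List (ℝ × ℝ × Bool)) (w t : ℝ) :
    Tendsto (fun p => el (L ++ (w, p, false) :: L')) (𝓝[>] t) (𝓝 (el (L ++ (w, t, false) :: L'))) := by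
  apply tendsto_el
  intro s
  simp only [S_append, S_cons]
  exact tendsto_const_nhds.add (((ind_right t s).const_mul _).add tendsto_const_nhds)

/-- moving an atom to the left limit -/
theorem el_left (L L' : List (ℝ × ℝ × Bool)) (w t : ℝ) :
    Tendsto (fun p => el (L ++ (w, p, false) :: L')) (𝓝[<] t) (𝓝 (el (L ++ (w, t, true) :: L'))) := by
  apply tendsto_el
  intro s
  simp only [S_append, S_cons]
  exact tendsto_const_nhds.add (((ind_left t s).const_mul _).add tendsto_const_nhds)

/-- changing the weights -/
theorem el_weights (L : List (ℝ × ℝ × Bool)) (t d : ℝ) :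
    Continuous fun r : ℝ => el (L ++ [(r, t, true), (d - r, t, false)]) := by
  rw [continuous_iff_continuousAt]
  intro r
  apply tendsto_el
  intro s
  simp only [S_append, S_cons, S_nil]
  have : Continuous fun r : ℝ => S L s + (|r| * ind t true s + (|d - r| * ind t false s + 0)) := by
    fun_prop
  exact this.continuousAt

/-- the two elements with one atom of weight one differ -/
theorem el_ne {t : ℝ} (h0 : 0 ≤ t) (h1 : t ≤ 1) : el [(1, t, false)] ≠ el [(1, t, true)] := by
  intro h
  have h2 := congrFun (congrArg Subtype.val h) ⟨t, h0, h1⟩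
  have h3 := congrArg Subtype.val h2
  change min (S [(1, t, false)] t) 1 = min (S [(1, t, true)] t) 1 at h3
  simp [ind] at h3

end Q41.HL
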