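import Pool.Agent.Q41.HL.Meas

/-! A Polish space of uniform jumps. -/

set_option autoImplicit false

open MeasureTheory Topology Filter Set

namespace Q41.HL

/-- inside a Polish space with a continuous real function with uncountable range there is a closed
subspace on no nonempty open subset of which the function is constant -/
theorem exists_kernel {B : Type} [TopologicalSpace B] [PolishSpace B] {t : B → ℝ}
    (hunc : ¬ (range t).Countable) :
    ∃ C : Set B, IsClosed C ∧ C.Nonempty ∧ ∀ O : Set B, IsOpen O → (O ∩ C).Nonempty →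
      ∃ z ∈ O ∩ C, ∃ z' ∈ O ∩ C, t z < t z' := by
  set T : Set (Set B) := {b | b ∈ TopologicalSpace.countableBasis B ∧ (t '' b).Countable} with hT
  have hTc : T.Countable := (TopologicalSpace.countable_countableBasis B).mono fun b hb => hb.1
  set bad := ⋃₀ T with hbad
  have hbo : IsOpen bad := isOpen_sUnion fun b hb => TopologicalSpace.isOpen_of_mem_countableBasis hb.1
  have hbc : (t '' bad).Countable := by
    rw [hbad, sUnion_eq_biUnion, image_iUnion₂]
    exact hTc.biUnion fun b hb => hb.2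
  refine ⟨badᶜ, hbo.isClosed_compl, ?_, ?_⟩
  · by_contra hne
    rw [not_nonempty_iff_eq_empty, compl_empty_iff] at hne
    rw [hne, image_univ] at hbc
    exact hunc hbc
  · intro O hO hOne
    by_contra hcon
    push Not at hcon
    obtain ⟨z, hzO, hzC⟩ := hOne
    have hsub : (t '' (O ∩ badᶜ)).Subsingleton := by
      rintro _ ⟨a, ha, rfl⟩ _ ⟨b, hb, rfl⟩
      exact le_antisymm (hcon b hb a ha) (hcon a ha b hb)
    have hOc : (t '' O).Countable := by
      refine (hsub.countable.union hbc).mono ?_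
      rintro _ ⟨a, ha, rfl⟩
      by_cases hab : a ∈ bad
      · exact Or.inr ⟨a, hab, rfl⟩
      · exact Or.inl ⟨a, ⟨ha, hab⟩, rfl⟩
    obtain ⟨b, hb, hzb, hbO⟩ :=
      (TopologicalSpace.isBasis_countableBasis B).exists_subset_of_mem_open hzO hO
    exact hzC ⟨b, ⟨hb, hOc.mono (image_mono hbO)⟩, hzb⟩

variable {P : Type} [TopologicalSpace P] [PolishSpace P] [MeasurableSpace P] [BorelSpace P]
  {φ : P → Helly → ℝ}

/-- the size of the jump at `t` seen by `x` -/
noncomputable def jmp (φ : P → Helly → ℝ) (t : ℝ) (x : P) : ℝ :=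
  |φ x (el [(1, t, false)]) - φ x (el [(1, t, true)])|

omit [TopologicalSpace P] [PolishSpace P] [BorelSpace P] in
theorem jmp_meas (hc : ∀ x, Continuous (φ x)) (hm : ∀ h, Measurable fun x => φ x h) :
    Measurable fun p : ℝ × P => jmp φ p.1 p.2 := by
  have h1 := meas_el hc hm (Y := ℝ × P) measurable_snd [(1, Prod.fst, false)]
    (by simpa using measurable_fst) []
  have h2 := meas_el hc hm (Y := ℝ × P) measurable_snd [(1, Prod.fst, true)]
    (by simpa using measurable_fst) []
  simp only [List.nil_append, List.map_cons, List.map_nil] at h1 h2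
  exact (h1.sub h2).abs

theorem exists_Z (hc : ∀ x, Continuous (φ x)) (hm : ∀ h, Measurable fun x => φ x h)
    (hinj : ∀ t : ℝ, 0 < t → t < 1 → ∃ x, φ x (el [(1, t, false)]) ≠ φ x (el [(1, t, true)])) :
    ∃ (Z : Type) (_ : TopologicalSpace Z) (_ : PolishSpace Z) (_ : Nonempty Z) (t : Z → ℝ)
      (x : Z → P) (ε : ℝ), 0 < ε ∧ Continuous t ∧ Continuous x ∧ (∀ z, ε ≤ jmp φ (t z) (x z)) ∧
      ∀ O : Set Z, IsOpen O → O.Nonempty → ∃ z ∈ O, ∃ z' ∈ O, t z < t z' := by
  set R : ℕ → Set (ℝ × P) := fun n => {p | p.1 ∈ Ioo (0:ℝ) 1 ∧ 1 / ((n : ℝ) + 1) ≤ jmp φ p.1 p.2}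
    with hR
  have hRm : ∀ n, MeasurableSet (R n) := by
    intro n
    apply MeasurableSet.inter
    · exact measurable_fst measurableSet_Ioo
    · exact measurableSet_le measurable_const (jmp_meas hc hm)
  have hcover : Ioo (0:ℝ) 1 ⊆ ⋃ n, Prod.fst '' R n := by
    intro t ht
    obtain ⟨x, hx⟩ := hinj t ht.1 ht.2
    have hpos : 0 < jmp φ t x := abs_pos.2 (sub_ne_zero.2 hx)
    obtain ⟨n, hn⟩ := exists_nat_one_div_lt hpos
    exact mem_iUnion.2 ⟨n, (t, x), ⟨ht, hn.le⟩, rfl⟩
  have hun : ∃ n, ¬ (Prod.fst '' R n).Countable := by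
    by_contra hcon
    push Not at hcon
    have h1 : (Ioo (0:ℝ) 1).Countable := (countable_iUnion hcon).mono hcover
    exact (Cardinal.Real.Ioo_countable_iff.not.2 (by norm_num)) h1
  obtain ⟨n, hn⟩ := hun
  obtain ⟨B, hB1, hB2, f, hf, hrange⟩ :=
    (analyticSet_iff_exists_polishSpace_range.1 (hRm n).analyticSet)
  have hunc : ¬ (range fun z => (f z).1).Countable := by
    have : (range fun z => (f z).1) = Prod.fst '' R n := by
      rw [← hrange, ← range_comp]; rfl
    rw [this]; exact hn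
  obtain ⟨C, hCc, hCne, hC⟩ := exists_kernel hunc
  refine ⟨C, inferInstance, hCc.polishSpace, hCne.to_subtype, fun z => (f z).1, fun z => (f z).2,
    1 / ((n : ℝ) + 1), by positivity, ?_, ?_, ?_, ?_⟩
  · exact continuous_fst.comp (hf.comp continuous_subtype_val)
  · exact continuous_snd.comp (hf.comp continuous_subtype_val)
  · intro z
    have : f z ∈ R n := by rw [← hrange]; exact mem_range_self _
    exact this.2
  · intro O hO hOne
    obtain ⟨O', hO', rfl⟩ := isOpen_induced_iff.1 hO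
    obtain ⟨z0, hz0⟩ := hOne
    obtain ⟨z, hz, z', hz', hlt⟩ := hC O' hO' ⟨z0, hz0, z0.2⟩
    exact ⟨⟨z, hz.2⟩, hz.1, ⟨z', hz'.2⟩, hz'.1, hlt⟩

end Q41.HL
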