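import Pool.Agent.Q41.HL.Step
import Pool.Agent.Q41.HL.Zed

/-! The generic filter and the main theorem. -/

set_option autoImplicit false

open MeasureTheory Topology Filter Set

namespace Q41.HL

variable {P : Type} [TopologicalSpace P] {φ : P → Helly → ℝ}
  {Z : Type} [TopologicalSpace Z] {t : Z → ℝ} {x : Z → P}

/-- conditions -/
structure Cond (φ : P → Helly → ℝ) (t : Z → ℝ) (x : Z → P) (q : ℕ → Z) where
  /-- the nodes -/
  N : Finset ℕ
  /-- the weights -/
  d : ℕ → ℚ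
  /-- the amplitudes -/
  A : ℕ → ℝ
  /-- the pairs -/
  E : Finset (ℕ × ℕ)
  valid : Valid φ t x q N d A E

instance (q : ℕ → Z) : Preorder (Cond φ t x q) where
  le c c' := c.N ⊆ c'.N ∧ (∀ v ∈ c.N, c'.A v = c.A v) ∧ c.E ⊆ c'.E
  le_refl c := ⟨subset_rfl, fun _ _ => rfl, subset_rfl⟩
  le_trans a b c hab hbc := ⟨hab.1.trans hbc.1,
    fun v hv => (hbc.2.1 v (hab.1 hv)).trans (hab.2.1 v hv), hab.2.2.trans hbc.2.2⟩

/-- the condition has a pair starting at `u` and ending in `V`, or no stronger condition has the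
node `u` -/
def goodSet (φ : P → Helly → ℝ) (t : Z → ℝ) (x : Z → P) (q : ℕ → Z) (u : ℕ) (V : Set P) :
    Set (Cond φ t x q) :=
  {c | (∃ j, (u, j) ∈ c.E ∧ x (q j) ∈ V) ∨ ∀ c', c ≤ c' → u ∉ c'.N ∨ x (q u) ∉ V}

theorem goodSet_cofinal [MeasurableSpace P] (hc : ∀ y, Continuous (φ y)) (ht : Continuous t)
    (hx : Continuous x) {q : ℕ → Z} (hq : Generic φ t x q) (hne : ∀ i, (Fil t q i).NeBot) (u : ℕ)
    {V : Set P} (hV : IsOpen V) : IsCofinal (goodSet φ t x q u V) := by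
  intro c
  by_cases h : ∃ c', c ≤ c' ∧ u ∈ c'.N ∧ x (q u) ∈ V
  · obtain ⟨c', hcc', hu, hxV⟩ := h
    obtain ⟨j, d', A', hval, hA, hj⟩ := step hc ht hx hq hne c'.valid hu hV hxV
    refine ⟨⟨insert j c'.N, d', A', insert (u, j) c'.E, hval⟩,
      Or.inl ⟨j, Finset.mem_insert_self _ _, hj⟩, ?_⟩
    refine hcc'.trans ⟨Finset.subset_insert _ _, hA, Finset.subset_insert _ _⟩
  · refine ⟨c, Or.inr fun c' hcc' => ?_, le_rfl⟩
    by_contra hcon
    push Not at hcon
    exact h ⟨c', hcc', hcon.1, hcon.2⟩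

theorem not_all_SC [PolishSpace P] [MeasurableSpace P] [BorelSpace P]
    (hc : ∀ y, Continuous (φ y)) (hm : ∀ h, Measurable fun y => φ y h)
    (hinj : ∀ t : ℝ, 0 < t → t < 1 → ∃ x, φ x (el [(1, t, false)]) ≠ φ x (el [(1, t, true)])) :
    ∃ h : Helly, ¬ SC fun y => φ y h := by
  obtain ⟨Z, hZ1, hZ2, hZ3, t, x, ε, hε, ht, hx, hjmp, hNC⟩ := exists_Z hc hm hinj
  -- a generic sequence
  obtain ⟨q, hq, hne⟩ : ∃ q : ℕ → Z, Generic φ t x q ∧ ∀ i, (Fil t q i).NeBot := by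
    let _ : MeasurableSpace (ℕ → Z) := borel (ℕ → Z)
    have _ : BorelSpace (ℕ → Z) := ⟨rfl⟩
    obtain ⟨G, hG, hGU⟩ := generic (Fam φ t x) (fun a => Fam_meas hc hm ht hx a)
    obtain ⟨q, h1, h2⟩ := exists_q ht hNC hG
    exact ⟨q, ⟨G, hGU, h1⟩, h2⟩
  -- the first condition
  have hstart : Valid φ t x q {0} (fun _ => 1) (fun _ => ε / 2) ∅ := by
    refine ⟨fun _ _ => one_pos, fun _ _ => half_pos hε, ?_, ?_, ?_⟩
    · intro v hv
      rw [Finset.mem_singleton] at hv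
      subst hv
      have e1 : el (bs (t ∘ q) {0} (fun _ => 1) f0) = el [(1, t (q 0), false)] := by
        apply el_congr
        intro s
        rw [S_bs]
        simp [f0]
      have e2 : el (bs (t ∘ q) {0} (fun _ => 1) (fl 0)) = el [(1, t (q 0), true)] := by
        apply el_congr
        intro s
        rw [S_bs]
        simp [fl]
      rw [e1, e2]
      have := hjmp (q 0)
      unfold jmp at this
      linarith
    · intro e he; simp at he
    · intro e he; simp at he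
  set c0 : Cond φ t x q := ⟨{0}, fun _ => 1, fun _ => ε / 2, ∅, hstart⟩ with hc0
  have : Encodable (TopologicalSpace.countableBasis P) :=
    (TopologicalSpace.countable_countableBasis P).toEncodable
  set D : ℕ × TopologicalSpace.countableBasis P → Order.Cofinal (Cond φ t x q) := fun a =>
    ⟨goodSet φ t x q a.1 a.2, goodSet_cofinal hc ht hx hq hne a.1
      (TopologicalSpace.isOpen_of_mem_countableBasis a.2.2)⟩ with hD
  set I := Order.idealOfCofinals c0 D with hI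
  have hc0I : c0 ∈ I := Order.mem_idealOfCofinals c0 D
  have hmeet : ∀ a, ∃ c, c ∈ D a ∧ c ∈ I := fun a => Order.cofinal_meets_idealOfCofinals c0 D a
  -- the limit function
  set K : I → Set Helly := fun c => {h | ∀ e ∈ c.1.E,
    c.1.A e.1 ≤ |φ (x (q e.2)) h - φ (x (q e.1)) h|} with hK
  have hKdir : Directed (· ⊇ ·) K := by
    intro c c'
    obtain ⟨c'', hc'', h1, h2⟩ := I.directed c.1 c.2 c'.1 c'.2
    refine ⟨⟨c'', hc''⟩, ?_, ?_⟩
    · intro h hh e he
      have := hh e (h1.2.2 he)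
      rwa [h1.2.1 e.1 (c.1.valid.mem e he).1] at this
    · intro h hh e he
      have := hh e (h2.2.2 he)
      rwa [h2.2.1 e.1 (c'.1.valid.mem e he).1] at this
  have hKclosed : ∀ c, IsClosed (K c) := by
    intro c
    have : K c = ⋂ (e : ℕ × ℕ) (_ : e ∈ c.1.E),
        {h | c.1.A e.1 ≤ |φ (x (q e.2)) h - φ (x (q e.1)) h|} := by
      ext h
      simp only [hK, mem_ofPred_eq, mem_iInter]
    rw [this]
    refine isClosed_iInter fun e => isClosed_iInter fun _ => ?_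
    exact isClosed_le continuous_const ((hc _).sub (hc _)).abs
  have : Nonempty I := ⟨⟨c0, hc0I⟩⟩
  obtain ⟨f, hf⟩ := IsCompact.nonempty_iInter_of_directed_nonempty_isCompact_isClosed K hKdir
    (fun c => ⟨el (bs (t ∘ q) c.1.N c.1.d f0), fun e he => (c.1.valid.edge e he).le⟩)
    (fun c => (hKclosed c).isCompact) hKclosed
  rw [mem_iInter] at hf
  refine ⟨f, fun hSC => ?_⟩
  set A : Set P := {y | ∃ c ∈ I, ∃ u ∈ c.N, y = x (q u)} with hA
  have hAne : A.Nonempty := ⟨x (q 0), c0, hc0I, 0, by simp [hc0], rfl⟩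
  obtain ⟨_, ⟨c, hcI, u, hu, rfl⟩, hcont⟩ := hSC A hAne
  rw [Metric.continuousWithinAt_iff'] at hcont
  have hamp := c.valid.amp u hu
  have h1 := hcont (c.A u) hamp
  rw [eventually_nhdsWithin_iff] at h1
  obtain ⟨O, hOs, hOo, hxO⟩ := mem_nhds_iff.1 h1
  obtain ⟨V, hV, hxV, hVO⟩ :=
    (TopologicalSpace.isBasis_countableBasis P).exists_subset_of_mem_open hxO hOo
  obtain ⟨c', hc'D, hc'I⟩ := hmeet (u, ⟨V, hV⟩)
  obtain ⟨c'', hc''I, h2, h3⟩ := I.directed c hcI c' hc'I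
  have h2' : c ≤ c'' := h2
  have h3' : c' ≤ c'' := h3
  have hu'' : u ∈ c''.N := h2'.1 hu
  rcases hc'D with ⟨j, hj, hjV⟩ | h
  · have hjE : (u, j) ∈ c''.E := h3'.2.2 hj
    have h4 := hf ⟨c'', hc''I⟩ (u, j) hjE
    simp only at h4
    rw [h2'.2.1 u hu] at h4
    have h5 := hOs (hVO hjV) ⟨c'', hc''I, j, (c''.valid.mem _ hjE).2, rfl⟩
    rw [Real.dist_eq] at h5
    linarith
  · rcases h c'' h3' with h | h
    · exact h hu''
    · exact h hxV

end Q41.HL
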