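import Pool.Agent.Q41.HL.Hel

/-! Measurability of the evaluations. -/

set_option autoImplicit false

open MeasureTheory Topology Filter Set

namespace Q41.HL

/-- approximation of `p` by multiples of `1/(n+1)`, from above for the flag `false` and from below
for the flag `true` -/
noncomputable def num (n : ℕ) (b : Bool) (p : ℝ) : ℤ :=
  match b with
  | true => ⌈((n : ℝ) + 1) * p⌉ - 1
  | false => ⌊((n : ℝ) + 1) * p⌋ + 1

theorem num_meas (n : ℕ) (b : Bool) : Measurable (num n b) := by
  unfold num
  cases b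
  · exact ((Int.measurable_floor.comp (measurable_const.mul measurable_id)).add measurable_const)
  · exact ((Int.measurable_ceil.comp (measurable_const.mul measurable_id)).sub measurable_const)

theorem num_right (p : ℝ) :
    Tendsto (fun n : ℕ => ((num n false p : ℤ) : ℝ) / ((n : ℝ) + 1)) atTop (𝓝[>] p) := by
  rw [tendsto_nhdsWithin_iff]
  have hlow : ∀ n : ℕ, p < ((num n false p : ℤ) : ℝ) / ((n : ℝ) + 1) := by
    intro n
    have hn : (0:ℝ) < (n : ℝ) + 1 := by positivity
    rw [lt_div_iff₀ hn]
    simp only [num]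
    push_cast
    have := Int.lt_floor_add_one (((n : ℝ) + 1) * p)
    linarith
  have hup : ∀ n : ℕ, ((num n false p : ℤ) : ℝ) / ((n : ℝ) + 1) ≤ p + 1 / ((n : ℝ) + 1) := by
    intro n
    have hn : (0:ℝ) < (n : ℝ) + 1 := by positivity
    rw [div_le_iff₀ hn]
    simp only [num]
    push_cast
    have := Int.floor_le (((n : ℝ) + 1) * p)
    have e : (p + 1 / ((n : ℝ) + 1)) * ((n : ℝ) + 1) = ((n : ℝ) + 1) * p + 1 := by
      field_simp
    rw [e]
    linarith
  constructor
  · refine tendsto_of_tendsto_of_tendsto_of_le_of_le tendsto_const_nhds ?_ (fun n => (hlow n).le) hup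
    have := (tendsto_const_nhds (x := p)).add (tendsto_one_div_add_atTop_nhds_zero_nat (𝕜 := ℝ))
    simpa using this
  · exact Eventually.of_forall fun n => hlow n

theorem num_left (p : ℝ) :
    Tendsto (fun n : ℕ => ((num n true p : ℤ) : ℝ) / ((n : ℝ) + 1)) atTop (𝓝[<] p) := by
  rw [tendsto_nhdsWithin_iff]
  have hup : ∀ n : ℕ, ((num n true p : ℤ) : ℝ) / ((n : ℝ) + 1) < p := by
    intro n
    have hn : (0:ℝ) < (n : ℝ) + 1 := by positivity
    rw [div_lt_iff₀ hn]
    simp only [num]
    push_cast
    have := Int.ceil_lt_add_one (((n : ℝ) + 1) * p)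
    linarith
  have hlow : ∀ n : ℕ, p - 1 / ((n : ℝ) + 1) ≤ ((num n true p : ℤ) : ℝ) / ((n : ℝ) + 1) := by
    intro n
    have hn : (0:ℝ) < (n : ℝ) + 1 := by positivity
    rw [le_div_iff₀ hn]
    simp only [num]
    push_cast
    have := Int.le_ceil (((n : ℝ) + 1) * p)
    have e : (p - 1 / ((n : ℝ) + 1)) * ((n : ℝ) + 1) = ((n : ℝ) + 1) * p - 1 := by
      field_simp
    rw [e]
    linarith
  constructor
  · refine tendsto_of_tendsto_of_tendsto_of_le_of_le ?_ tendsto_const_nhds hlow (fun n => (hup n).le)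
    have := (tendsto_const_nhds (x := p)).sub (tendsto_one_div_add_atTop_nhds_zero_nat (𝕜 := ℝ))
    simpa using this
  · exact Eventually.of_forall fun n => hup n

/-- approximating one atom -/
theorem el_num (L L' : List (ℝ × ℝ × Bool)) (w p : ℝ) (b : Bool) :
    Tendsto (fun n : ℕ => el (L ++ (w, ((num n b p : ℤ) : ℝ) / ((n : ℝ) + 1), false) :: L')) atTop
      (𝓝 (el (L ++ (w, p, b) :: L'))) := by
  cases b
  · exact (el_right L L' w p).comp (num_right p)
  · exact (el_left L L' w p).comp (num_left p)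

variable {P : Type} [MeasurableSpace P] {φ : P → Helly → ℝ}

theorem meas_el (hc : ∀ x, Continuous (φ x)) (hm : ∀ h, Measurable fun x => φ x h)
    {Y : Type} [MeasurableSpace Y] {xx : Y → P} (hx : Measurable xx)
    (l : List (ℝ × (Y → ℝ) × Bool)) (hl : ∀ a ∈ l, Measurable a.2.1)
    (L : List (ℝ × ℝ × Bool)) :
    Measurable fun y => φ (xx y) (el (L ++ l.map fun a => (a.1, a.2.1 y, a.2.2))) := by
  induction l generalizing L with
  | nil =>
    simp only [List.map_nil, List.append_nil]
    exact (hm (el L)).comp hx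
  | cons a l ih =>
    have ha : Measurable a.2.1 := hl a (by simp)
    have hl' : ∀ b ∈ l, Measurable b.2.1 := fun b hb => hl b (by simp [hb])
    refine measurable_of_tendsto_metrizable (f := fun (n : ℕ) y => φ (xx y)
      (el (L ++ (a.1, ((num n a.2.2 (a.2.1 y) : ℤ) : ℝ) / ((n : ℝ) + 1), false) ::
        l.map fun a => (a.1, a.2.1 y, a.2.2)))) ?_ ?_
    · intro n
      have h1 : Measurable fun z : ℤ × Y => φ (xx z.2)
          (el (L ++ (a.1, ((z.1 : ℤ) : ℝ) / ((n : ℝ) + 1), false) ::
            l.map fun a => (a.1, a.2.1 z.2, a.2.2))) := by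
        apply measurable_from_prod_countable_right
        intro c
        have := ih hl' (L ++ [(a.1, ((c : ℤ) : ℝ) / ((n : ℝ) + 1), false)])
        simpa using this
      exact h1.comp (((num_meas n a.2.2).comp ha).prodMk measurable_id)
    · rw [tendsto_pi_nhds]
      intro y
      exact ((hc (xx y)).tendsto _).comp (el_num L _ a.1 (a.2.1 y) a.2.2)

end Q41.HL
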