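import Pool.Agent.Q41.HL.Meas
import Pool.Agent.Q41.HL.Gen

/-! The limit of the evaluations along a generic sequence. -/

set_option autoImplicit false

open MeasureTheory Topology Filter Set

namespace Q41.HL

/-- the atoms of a pattern -/
noncomputable def ev (σ : ℕ → ℝ) (π : List (ℚ × ℕ × Bool)) : List (ℝ × ℝ × Bool) :=
  π.map fun a => ((a.1 : ℝ), σ a.2.1, a.2.2)

variable {P : Type} [TopologicalSpace P] [MeasurableSpace P] [BorelSpace P] {φ : P → Helly → ℝ}
  {Z : Type} [TopologicalSpace Z] [PolishSpace Z] {t : Z → ℝ} {x : Z → P}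

/-- the index type of the countable family -/
abbrev Idx : Type := (ℕ × List (ℚ × ℕ × Bool) × ℚ × ℚ) ⊕ (ℕ × List (ℚ × ℕ × Bool) × ℚ × ℕ × ℚ)

/-- the evaluation of a pattern -/
noncomputable def W (φ : P → Helly → ℝ) (t : Z → ℝ) (x : Z → P) (i : ℕ)
    (π : List (ℚ × ℕ × Bool)) (q : ℕ → Z) : ℝ := φ (x (q i)) (el (ev (t ∘ q) π))

/-- the evaluation of a pattern with one more atom -/
noncomputable def W1 (φ : P → Helly → ℝ) (t : Z → ℝ) (x : Z → P) (i : ℕ)
    (π : List (ℚ × ℕ × Bool)) (ρ p : ℝ) (b : Bool) (q : ℕ → Z) : ℝ :=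
  φ (x (q i)) (el (ev (t ∘ q) π ++ [(ρ, p, b)]))

/-- the countable family of Borel sets -/
def Fam (φ : P → Helly → ℝ) (t : Z → ℝ) (x : Z → P) : Idx → Set (ℕ → Z)
  | Sum.inl (i, π, α, β) => {q | (α : ℝ) < W φ t x i π q ∧ W φ t x i π q < β}
  | Sum.inr (i, π, ρ, m, η) => {q | ∀ p : ℚ, t (q i) - 1 / ((m : ℝ) + 1) < p → (p : ℝ) < t (q i) →
      |W1 φ t x i π ρ p false q - W1 φ t x i π ρ (t (q i)) true q| ≤ η}

omit [TopologicalSpace P] [BorelSpace P] [TopologicalSpace Z] [PolishSpace Z] in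
theorem W_meas [MeasurableSpace Z] (hc : ∀ y, Continuous (φ y))
    (hm : ∀ h, Measurable fun y => φ y h) (ht : Measurable t) (hx : Measurable x) (i : ℕ)
    (π : List (ℚ × ℕ × Bool)) : Measurable (W φ t x i π) := by
  have h := meas_el hc hm (Y := ℕ → Z) (xx := fun q => x (q i)) (hx.comp (measurable_pi_apply i))
    (π.map fun a => ((a.1 : ℝ), (fun q : ℕ → Z => t (q a.2.1)), a.2.2)) (by
      intro a ha
      obtain ⟨b, _, rfl⟩ := List.mem_map.1 ha
      exact ht.comp (measurable_pi_apply _)) []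
  simp only [List.nil_append, List.map_map] at h
  exact h

omit [TopologicalSpace P] [BorelSpace P] [TopologicalSpace Z] [PolishSpace Z] in
theorem W1_meas [MeasurableSpace Z] (hc : ∀ y, Continuous (φ y))
    (hm : ∀ h, Measurable fun y => φ y h) (ht : Measurable t) (hx : Measurable x) (i : ℕ)
    (π : List (ℚ × ℕ × Bool)) (ρ : ℝ) {p : (ℕ → Z) → ℝ} (hp : Measurable p) (b : Bool) :
    Measurable fun q => W1 φ t x i π ρ (p q) b q := by
  have h := meas_el hc hm (Y := ℕ → Z) (xx := fun q => x (q i)) (hx.comp (measurable_pi_apply i))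
    ((π.map fun a => ((a.1 : ℝ), (fun q : ℕ → Z => t (q a.2.1)), a.2.2)) ++ [(ρ, p, b)]) (by
      intro a ha
      rcases List.mem_append.1 ha with ha | ha
      · obtain ⟨b, _, rfl⟩ := List.mem_map.1 ha
        exact ht.comp (measurable_pi_apply _)
      · rw [List.mem_singleton] at ha
        subst ha
        exact hp) []
  simp only [List.nil_append, List.map_append, List.map_map, List.map_cons, List.map_nil] at h
  exact h

theorem Fam_meas (hc : ∀ y, Continuous (φ y)) (hm : ∀ h, Measurable fun y => φ y h)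
    (ht : Continuous t) (hx : Continuous x) (a : Idx) :
    @MeasurableSet (ℕ → Z) (borel (ℕ → Z)) (Fam φ t x a) := by
  borelize Z
  have e : borel (ℕ → Z) = MeasurableSpace.pi := (Pi.borelSpace (X := fun _ : ℕ => Z)).measurable_eq.symm
  rw [e]
  have ht' : Measurable t := ht.measurable
  have hx' : Measurable x := hx.measurable
  rcases a with ⟨i, π, α, β⟩ | ⟨i, π, ρ, m, η⟩
  · exact (measurableSet_lt measurable_const (W_meas hc hm ht' hx' i π)).inter
      (measurableSet_lt (W_meas hc hm ht' hx' i π) measurable_const)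
  · have hti : Measurable fun q : ℕ → Z => t (q i) := ht'.comp (measurable_pi_apply i)
    have : Fam φ t x (Sum.inr (i, π, ρ, m, η)) = ⋂ p : ℚ,
        ({q : ℕ → Z | t (q i) - 1 / ((m : ℝ) + 1) < p}ᶜ ∪ ({q : ℕ → Z | (p : ℝ) < t (q i)}ᶜ ∪
          {q | |W1 φ t x i π ρ p false q - W1 φ t x i π ρ (t (q i)) true q| ≤ η})) := by
      ext q
      simp only [Fam, mem_ofPred_eq, mem_iInter, mem_union, mem_compl_iff]
      refine forall_congr' fun p => ?_
      tauto
    rw [this]
    refine MeasurableSet.iInter fun p => ?_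
    refine (measurableSet_lt (hti.sub measurable_const) measurable_const).compl.union
      ((measurableSet_lt measurable_const hti).compl.union ?_)
    exact measurableSet_le ((W1_meas hc hm ht' hx' i π ρ measurable_const false).sub
      (W1_meas hc hm ht' hx' i π ρ hti true)).abs measurable_const

omit [PolishSpace Z] in
theorem tend_swap (t : Z → ℝ) (q : ℕ → Z) (i : ℕ) :
    Tendsto (fun j => q ∘ Equiv.swap i j) (Fil t q i) (𝓝 q) := by
  rw [tendsto_pi_nhds]
  intro l
  have hle : Fil t q i ≤ comap q (𝓝 (q i)) := inf_le_left.trans inf_le_right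
  have hle2 : Fil t q i ≤ cofinite := inf_le_left.trans inf_le_left
  by_cases hl : l = i
  · subst hl
    have : (fun j => (q ∘ Equiv.swap l j) l) = q := by
      funext j; simp
    rw [this]
    exact tendsto_comap.mono_left hle
  · apply tendsto_const_nhds.congr'
    have : ∀ᶠ j in cofinite, j ≠ l := by
      rw [eventually_cofinite]
      simp
    filter_upwards [hle2 this] with j hj
    simp only [Function.comp]
    rw [Equiv.swap_apply_of_ne_of_ne hl (Ne.symm hj)]

/-- a sequence is generic if it and its swaps are in a set on which the family is clopen -/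
def Generic (φ : P → Helly → ℝ) (t : Z → ℝ) (x : Z → P) (q : ℕ → Z) : Prop :=
  ∃ G : Set (ℕ → Z), (∀ a, ∃ U, IsOpen U ∧ ∀ q ∈ G, (q ∈ Fam φ t x a ↔ q ∈ U)) ∧
    ∀ i j, q ∘ Equiv.swap i j ∈ G

omit [TopologicalSpace P] [MeasurableSpace P] [BorelSpace P] [PolishSpace Z] in
theorem Generic.ev_mem {q : ℕ → Z} (hq : Generic φ t x q) {a : Idx} (ha : q ∈ Fam φ t x a)
    (i : ℕ) : ∀ᶠ j in Fil t q i, q ∘ Equiv.swap i j ∈ Fam φ t x a := by
  obtain ⟨G, hG, hs⟩ := hq
  obtain ⟨U, hU, hUG⟩ := hG a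
  have hqG : q ∈ G := by
    have := hs 0 0
    simpa using this
  have h1 := (tend_swap t q i).eventually (hU.mem_nhds ((hUG q hqG).1 ha))
  filter_upwards [h1] with j hj
  exact (hUG _ (hs i j)).2 hj

omit [TopologicalSpace P] [MeasurableSpace P] [BorelSpace P] [PolishSpace Z] in
theorem Generic.tend_W {q : ℕ → Z} (hq : Generic φ t x q) (i : ℕ) (π : List (ℚ × ℕ × Bool)) :
    Tendsto (fun j => W φ t x i π (q ∘ Equiv.swap i j)) (Fil t q i) (𝓝 (W φ t x i π q)) := by
  rw [tendsto_order]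
  constructor
  · intro a ha
    obtain ⟨α, h1, h2⟩ := exists_rat_btwn ha
    obtain ⟨β, h3⟩ := exists_rat_gt (W φ t x i π q)
    have := hq.ev_mem (a := Sum.inl (i, π, α, β)) ⟨h2, h3⟩ i
    filter_upwards [this] with j hj
    exact h1.trans hj.1
  · intro b hb
    obtain ⟨β, h1, h2⟩ := exists_rat_btwn hb
    obtain ⟨α, h3⟩ := exists_rat_lt (W φ t x i π q)
    have := hq.ev_mem (a := Sum.inl (i, π, α, β)) ⟨h3, h1⟩ i
    filter_upwards [this] with j hj
    exact hj.2.trans h2

omit [TopologicalSpace P] [MeasurableSpace P] [BorelSpace P] [PolishSpace Z] in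
theorem tend_t {q : ℕ → Z} (ht : Continuous t) (i : ℕ) :
    Tendsto (fun j => t (q j)) (Fil t q i) (𝓝[>] (t (q i))) := by
  rw [tendsto_nhdsWithin_iff]
  constructor
  · have hle : Fil t q i ≤ comap q (𝓝 (q i)) := inf_le_left.trans inf_le_right
    exact (ht.tendsto _).comp (tendsto_comap.mono_left hle)
  · have hle : Fil t q i ≤ 𝓟 {j | t (q i) < t (q j)} := inf_le_right
    exact hle (mem_principal_self _)

omit [TopologicalSpace P] [MeasurableSpace P] [BorelSpace P] [PolishSpace Z] in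
/-- the main limit -/
theorem Generic.star (hc : ∀ y, Continuous (φ y)) (ht : Continuous t) {q : ℕ → Z}
    (hq : Generic φ t x q) (i : ℕ) (π : List (ℚ × ℕ × Bool)) (ρ : ℚ) :
    Tendsto (fun j => φ (x (q j)) (el (ev (t ∘ (q ∘ Equiv.swap i j)) π
        ++ [((ρ : ℝ), t (q i), false)]))) (Fil t q i)
      (𝓝 (φ (x (q i)) (el (ev (t ∘ q) π ++ [((ρ : ℝ), t (q i), true)])))) := by
  rw [Metric.tendsto_nhds]
  intro ε hε
  obtain ⟨η, hη0, hηε⟩ := exists_rat_btwn (half_pos hε)
  -- the modulus at `q`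
  have h1 : ∃ m : ℕ, q ∈ Fam φ t x (Sum.inr (i, π, ρ, m, η)) := by
    have h2 := ((hc (x (q i))).tendsto _).comp (el_left (ev (t ∘ q) π) [] (ρ : ℝ) (t (q i)))
    rw [Metric.tendsto_nhds] at h2
    have h3 := h2 η hη0
    obtain ⟨l, hl, hsub⟩ := mem_nhdsLT_iff_exists_Ioo_subset.1 h3
    have hl' : 0 < t (q i) - l := sub_pos.2 hl
    obtain ⟨m, hm⟩ := exists_nat_one_div_lt hl'
    refine ⟨m, fun p hp1 hp2 => ?_⟩
    have := hsub ⟨by linarith, hp2⟩
    exact le_of_lt this
  obtain ⟨m, hm⟩ := h1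
  have h2 := hq.ev_mem hm i
  have h3 := hq.tend_W i (π ++ [(ρ, i, true)])
  rw [Metric.tendsto_nhds] at h3
  have h4 := h3 (ε / 2) (half_pos hε)
  have h5 := tend_t (q := q) ht i
  have hpos : (0:ℝ) < 1 / ((m : ℝ) + 1) := by positivity
  have h6 : ∀ᶠ p in 𝓝[>] (t (q i)), p < t (q i) + 1 / ((m : ℝ) + 1) :=
    mem_nhdsWithin_of_mem_nhds (Iio_mem_nhds (by linarith))
  have h7 := h5.eventually h6
  have h8 := h5.eventually (eventually_mem_nhdsWithin (a := t (q i)) (s := Ioi (t (q i))))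
  filter_upwards [h2, h4, h7, h8] with j hj2 hj4 hj7 hj8
  have hj8' : t (q i) < t (q j) := hj8
  have hswap : (q ∘ Equiv.swap i j) i = q j := by simp
  -- extend the bound to the real number `t (q i)`
  have key : |W1 φ t x i π ρ (t (q i)) false (q ∘ Equiv.swap i j)
      - W1 φ t x i π ρ (t (q j)) true (q ∘ Equiv.swap i j)| ≤ η := by
    have hlim : Tendsto (fun r : ℝ => |W1 φ t x i π ρ r false (q ∘ Equiv.swap i j)
      - W1 φ t x i π ρ (t (q j)) true (q ∘ Equiv.swap i j)|) (𝓝[>] (t (q i)))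
      (𝓝 |W1 φ t x i π ρ (t (q i)) false (q ∘ Equiv.swap i j)
      - W1 φ t x i π ρ (t (q j)) true (q ∘ Equiv.swap i j)|) := by
      have := ((hc (x ((q ∘ Equiv.swap i j) i))).tendsto _).comp
        (el_right (ev (t ∘ (q ∘ Equiv.swap i j)) π) [] (ρ : ℝ) (t (q i)))
      exact (this.sub_const _).abs
    refine le_of_tendsto_of_frequently hlim ?_
    rw [frequently_iff]
    intro U hU
    obtain ⟨u, hu, hsub⟩ := mem_nhdsGT_iff_exists_Ioo_subset.1 hU
    have hu' : t (q i) < u := hu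
    obtain ⟨r, hr1, hr2⟩ := exists_rat_btwn (lt_min hu' hj8')
    refine ⟨r, hsub ⟨hr1, hr2.trans_le (min_le_left _ _)⟩, ?_⟩
    have h9 := hj2 r (by rw [hswap]; linarith) (by rw [hswap]; exact hr2.trans_le (min_le_right _ _))
    rw [hswap] at h9
    exact h9
  have e1 : φ (x (q j)) (el (ev (t ∘ (q ∘ Equiv.swap i j)) π ++ [((ρ : ℝ), t (q i), false)]))
      = W1 φ t x i π ρ (t (q i)) false (q ∘ Equiv.swap i j) := by
    unfold W1
    rw [hswap]
  have e2 : W φ t x i (π ++ [(ρ, i, true)]) (q ∘ Equiv.swap i j)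
      = W1 φ t x i π ρ (t (q j)) true (q ∘ Equiv.swap i j) := by
    unfold W W1 ev
    simp
  have e3 : W φ t x i (π ++ [(ρ, i, true)]) q
      = φ (x (q i)) (el (ev (t ∘ q) π ++ [((ρ : ℝ), t (q i), true)])) := by
    unfold W ev
    simp
  rw [e2, e3] at hj4
  rw [e1]
  rw [Real.dist_eq] at hj4 ⊢
  have := abs_sub_le (W1 φ t x i π ρ (t (q i)) false (q ∘ Equiv.swap i j))
    (W1 φ t x i π ρ (t (q j)) true (q ∘ Equiv.swap i j))
    (φ (x (q i)) (el (ev (t ∘ q) π ++ [((ρ : ℝ), t (q i), true)])))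
  linarith

end Q41.HL
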