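import Pool.Agent.Q41.HL.Star

/-! Splitting one atom. -/

set_option autoImplicit false

open MeasureTheory Topology Filter Set

namespace Q41.HL

/-- the atoms of a state -/
noncomputable def bs (τ : ℕ → ℝ) (N : Finset ℕ) (d : ℕ → ℚ) (b : ℕ → Bool) :
    List (ℝ × ℝ × Bool) :=
  N.toList.map fun j => ((d j : ℝ), τ j, b j)

theorem S_bs (τ : ℕ → ℝ) (N : Finset ℕ) (d : ℕ → ℚ) (b : ℕ → Bool) (s : ℝ) :
    S (bs τ N d b) s = ∑ j ∈ N, |(d j : ℝ)| * ind (τ j) (b j) s := by
  unfold S bs
  rw [List.map_map, ← Finset.sum_map_toList]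
  rfl

theorem S_split (τ : ℕ → ℝ) {N : Finset ℕ} (d : ℕ → ℚ) (b : ℕ → Bool) {u : ℕ} (hu : u ∈ N)
    (s : ℝ) : S (bs τ N d b) s = S (bs τ (N.erase u) d b) s + |(d u : ℝ)| * ind (τ u) (b u) s := by
  rw [S_bs, S_bs, Finset.sum_erase_add _ _ hu]

theorem S_new (τ : ℕ → ℝ) {N : Finset ℕ} (d : ℕ → ℚ) (b : ℕ → Bool) {u j : ℕ} (hu : u ∈ N)
    (hj : j ∉ N) (r k : ℚ) (s : ℝ) :
    S (bs τ (insert j N) (Function.update (Function.update d u r) j k) b) s
      = S (bs τ (N.erase u) d b ++ [((r : ℝ), τ u, b u), ((k : ℝ), τ j, b j)]) s := by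
  have hju : j ≠ u := fun h => hj (h ▸ hu)
  rw [S_append, S_bs, S_bs, Finset.sum_insert hj, ← Finset.sum_erase_add _ _ hu]
  rw [Function.update_self, Function.update_of_ne (Ne.symm hju), Function.update_self]
  have e : ∑ i ∈ N.erase u, |((Function.update (Function.update d u r) j k i : ℚ) : ℝ)|
      * ind (τ i) (b i) s = ∑ i ∈ N.erase u, |(d i : ℝ)| * ind (τ i) (b i) s := by
    apply Finset.sum_congr rfl
    intro i hi
    have h1 : i ≠ u := Finset.ne_of_mem_erase hi
    have h2 : i ≠ j := fun h => hj (h ▸ Finset.mem_of_mem_erase hi)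
    rw [Function.update_of_ne h2, Function.update_of_ne h1]
  rw [e]
  simp only [S_cons, S_nil]
  ring

/-- the flag at `v` -/
def fl (v : ℕ) : ℕ → Bool := fun j => decide (j = v)

/-- no flag -/
def f0 : ℕ → Bool := fun _ => false

variable {P : Type} [TopologicalSpace P] {φ : P → Helly → ℝ}
  {Z : Type} [TopologicalSpace Z] {t : Z → ℝ} {x : Z → P}

/-- the validity of a state -/
structure Valid (φ : P → Helly → ℝ) (t : Z → ℝ) (x : Z → P) (q : ℕ → Z) (N : Finset ℕ)
    (d : ℕ → ℚ) (A : ℕ → ℝ) (E : Finset (ℕ × ℕ)) : Prop where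
  pos : ∀ v ∈ N, 0 < d v
  amp : ∀ v ∈ N, 0 < A v
  jump : ∀ v ∈ N, A v < |φ (x (q v)) (el (bs (t ∘ q) N d f0))
    - φ (x (q v)) (el (bs (t ∘ q) N d (fl v)))|
  mem : ∀ e ∈ E, e.1 ∈ N ∧ e.2 ∈ N
  edge : ∀ e ∈ E, A e.1 < |φ (x (q e.2)) (el (bs (t ∘ q) N d f0))
    - φ (x (q e.1)) (el (bs (t ∘ q) N d f0))|

/-- choosing the rational splitting ratio -/
theorem exists_ratio {Ω : ℝ → ℝ} (hΩ : Continuous Ω) {dd A : ℝ} (hd : 0 < dd) (hA : 0 < A)
    (h : A < |Ω 0 - Ω dd|) :
    ∃ r : ℚ, 0 < (r : ℝ) ∧ (r : ℝ) < dd ∧ A < |Ω 0 - Ω r| ∧ |Ω 0 - Ω r| < |Ω 0 - Ω dd| := by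
  set f : ℝ → ℝ := fun r => |Ω 0 - Ω r| with hf
  have hfc : Continuous f := (continuous_const.sub hΩ).abs
  have hf0 : f 0 = 0 := by simp [hf]
  have hfd : A < f dd := h
  have hmid : (A + f dd) / 2 ∈ Icc (f 0) (f dd) := ⟨by rw [hf0]; linarith, by linarith⟩
  obtain ⟨r0, hr0, hr0f⟩ := intermediate_value_Icc hd.le hfc.continuousOn hmid
  have hopen : IsOpen {r | A < f r ∧ f r < f dd} :=
    (isOpen_lt continuous_const hfc).inter (isOpen_lt hfc continuous_const)
  have hne0 : r0 ≠ 0 := by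
    rintro rfl
    rw [hf0] at hr0f
    linarith
  have hned : r0 ≠ dd := by
    rintro rfl
    linarith
  have hU : IsOpen (Ioo 0 dd ∩ {r | A < f r ∧ f r < f dd}) := isOpen_Ioo.inter hopen
  obtain ⟨r, hr⟩ := Rat.denseRange_cast.exists_mem_open hU
    ⟨r0, ⟨lt_of_le_of_ne hr0.1 (Ne.symm hne0), lt_of_le_of_ne hr0.2 hned⟩, by
      constructor <;> rw [hr0f] <;> linarith⟩
  exact ⟨r, hr.1.1, hr.1.2, hr.2.1, hr.2.2⟩

theorem step [MeasurableSpace P] (hc : ∀ y, Continuous (φ y)) (ht : Continuous t)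
    (hx : Continuous x) {q : ℕ → Z} (hq : Generic φ t x q) (hne : ∀ i, (Fil t q i).NeBot)
    {N : Finset ℕ} {d : ℕ → ℚ} {A : ℕ → ℝ} {E : Finset (ℕ × ℕ)} (hV : Valid φ t x q N d A E)
    {u : ℕ} (hu : u ∈ N) {V : Set P} (hVo : IsOpen V) (hxV : x (q u) ∈ V) :
    ∃ (j : ℕ) (d' : ℕ → ℚ) (A' : ℕ → ℝ), Valid φ t x q (insert j N) d' A' (insert (u, j) E) ∧
      (∀ v ∈ N, A' v = A v) ∧ x (q j) ∈ V := by
  set τ := t ∘ q with hτ
  set R := bs τ (N.erase u) d f0 with hR
  set Ω : ℝ → ℝ := fun r => φ (x (q u)) (el (R ++ [(r, τ u, true), ((d u : ℝ) - r, τ u, false)]))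
    with hΩ
  have hΩc : Continuous Ω := (hc _).comp (el_weights R (τ u) (d u : ℝ))
  have hdu : (0:ℝ) < (d u : ℝ) := by exact_mod_cast hV.pos u hu
  have hbs_fl : bs τ (N.erase u) d (fl u) = R := by
    rw [hR]
    unfold bs
    apply List.map_congr_left
    intro i hi
    have : i ≠ u := Finset.ne_of_mem_erase (Finset.mem_toList.1 hi)
    simp [fl, f0, this]
  have hΩ0 : Ω 0 = φ (x (q u)) (el (bs τ N d f0)) := by
    rw [hΩ]
    refine congrArg (φ (x (q u))) (el_congr fun s => ?_)
    rw [S_split τ d f0 hu]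
    simp [f0, hR]
  have hΩd : Ω (d u : ℝ) = φ (x (q u)) (el (bs τ N d (fl u))) := by
    rw [hΩ]
    refine congrArg (φ (x (q u))) (el_congr fun s => ?_)
    rw [S_split τ d (fl u) hu, hbs_fl]
    simp [fl]
  have hjump := hV.jump u hu
  rw [← hΩ0, ← hΩd] at hjump
  obtain ⟨r, hr0, hrd, hrA, hrd2⟩ := exists_ratio hΩc hdu (hV.amp u hu) hjump
  have hk : (((d u - r : ℚ)) : ℝ) = (d u : ℝ) - r := by push_cast; ring
  have hne' : Ω r ≠ Ω (d u : ℝ) := by
    intro h
    rw [h] at hrd2
    exact lt_irrefl _ hrd2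
  set a : ℝ := |Ω r - Ω (d u : ℝ)| / 2 with ha
  have hapos : 0 < a := by
    have := abs_pos.2 (sub_ne_zero.2 hne')
    positivity
  have hτt := tend_t (q := q) ht u
  -- the limits of the elements
  have L1 : ∀ (L : List (ℝ × ℝ × Bool)) (w ρ : ℝ) (b : Bool), Tendsto
      (fun j => el (L ++ [(ρ, τ u, b), (w, τ j, false)])) (Fil t q u)
      (𝓝 (el (L ++ [(ρ, τ u, b), (w, τ u, false)]))) := by
    intro L w ρ b
    have := (el_right (L ++ [(ρ, τ u, b)]) [] w (τ u)).comp hτt
    simp only [List.append_assoc, List.cons_append, List.nil_append] at this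
    exact this
  -- the element of the new state
  have hnew : ∀ (b : ℕ → Bool) (j : ℕ), j ∉ N →
      el (bs τ (insert j N) (Function.update (Function.update d u r) j (d u - r)) b)
        = el (bs τ (N.erase u) d b ++ [((r : ℝ), τ u, b u), (((d u - r : ℚ) : ℝ), τ j, b j)]) :=
    fun b j hj => el_congr fun s => S_new τ d b hu hj r (d u - r) s
  have hjoin : ∀ b : ℕ → Bool, b u = false →
      el (bs τ (N.erase u) d b ++ [((r : ℝ), τ u, false), (((d u - r : ℚ) : ℝ), τ u, false)])
        = el (bs τ N d b) := by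
    intro b hb
    apply el_congr
    intro s
    rw [S_split τ d b hu, hb, hk]
    simp only [S_append, S_cons, S_nil]
    rw [abs_of_pos hr0, abs_of_pos (by linarith : (0:ℝ) < (d u : ℝ) - r), abs_of_pos hdu]
    ring
  have hcof : ∀ᶠ j in Fil t q u, j ∉ N := by
    have hle2 : Fil t q u ≤ cofinite := inf_le_left.trans inf_le_left
    apply hle2
    rw [mem_cofinite]
    refine N.finite_toSet.subset ?_
    intro j hj
    simpa using hj
  have hxt : ∀ᶠ j in Fil t q u, x (q j) ∈ V := by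
    have hle : Fil t q u ≤ comap q (𝓝 (q u)) := inf_le_left.trans inf_le_right
    have h1 : Tendsto (fun j => x (q j)) (Fil t q u) (𝓝 (x (q u))) :=
      (hx.tendsto _).comp (tendsto_comap.mono_left hle)
    exact h1.eventually (hVo.mem_nhds hxV)
  -- limit of evaluations at old nodes
  have hT0 : ∀ v, Tendsto (fun j => φ (x (q v)) (el (R ++ [((r : ℝ), τ u, false),
      (((d u - r : ℚ) : ℝ), τ j, false)]))) (Fil t q u) (𝓝 (φ (x (q v)) (el (bs τ N d f0)))) := by
    intro v
    rw [← hjoin f0 rfl]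
    exact ((hc _).tendsto _).comp (L1 R _ _ _)
  have hTv : ∀ v, v ≠ u → Tendsto (fun j => φ (x (q v)) (el (bs τ (N.erase u) d (fl v) ++
      [((r : ℝ), τ u, false), (((d u - r : ℚ) : ℝ), τ j, false)]))) (Fil t q u)
      (𝓝 (φ (x (q v)) (el (bs τ N d (fl v))))) := by
    intro v hv
    rw [← hjoin (fl v) (by simp [fl, Ne.symm hv])]
    exact ((hc _).tendsto _).comp (L1 _ _ _ _)
  have hTu : Tendsto (fun j => φ (x (q u)) (el (R ++ [((r : ℝ), τ u, true),
      (((d u - r : ℚ) : ℝ), τ j, false)]))) (Fil t q u) (𝓝 (Ω r)) := by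
    have := ((hc (x (q u))).tendsto _).comp (L1 R ((d u - r : ℚ) : ℝ) (r : ℝ) true)
    rw [hk] at this ⊢
    exact this
  -- limit of evaluations at the new node
  set π : Bool → List (ℚ × ℕ × Bool) := fun b =>
    ((N.erase u).toList.map fun j => (d j, j, false)) ++ [(d u - r, u, b)] with hπ
  have hπev : ∀ (b : Bool) (σ : ℕ → ℝ), ev σ (π b)
      = (N.erase u).toList.map (fun j => ((d j : ℝ), σ j, false))
        ++ [(((d u - r : ℚ) : ℝ), σ u, b)] := by
    intro b σ
    rw [hπ]
    unfold ev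
    rw [List.map_append, List.map_map]
    rfl
  have hswapev : ∀ (b : Bool) (j : ℕ), j ∉ N → ev (t ∘ (q ∘ Equiv.swap u j)) (π b)
      = R ++ [(((d u - r : ℚ) : ℝ), τ j, b)] := by
    intro b j hj
    rw [hπev]
    congr 1
    · rw [hR]
      unfold bs
      apply List.map_congr_left
      intro i hi
      have hi' := Finset.mem_toList.1 hi
      have h1 : i ≠ u := Finset.ne_of_mem_erase hi'
      have h2 : i ≠ j := fun h => hj (h ▸ Finset.mem_of_mem_erase hi')
      simp only [Function.comp, f0, hτ]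
      rw [Equiv.swap_apply_of_ne_of_ne h1 h2]
    · simp [hτ]
  have hTj : ∀ b : Bool, Tendsto (fun j => φ (x (q j)) (el (R ++ [((r : ℝ), τ u, false),
      (((d u - r : ℚ) : ℝ), τ j, b)]))) (Fil t q u)
      (𝓝 (φ (x (q u)) (el (R ++ [((r : ℝ), τ u, true), (((d u - r : ℚ) : ℝ), τ u, b)])))) := by
    intro b
    have h := hq.star hc ht u (π b) r
    have e1 : φ (x (q u)) (el (ev (t ∘ q) (π b) ++ [((r : ℝ), t (q u), true)]))
        = φ (x (q u)) (el (R ++ [((r : ℝ), τ u, true), (((d u - r : ℚ) : ℝ), τ u, b)])) := by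
      congr 1
      apply el_congr
      intro s
      rw [hπev]
      simp only [S_append, S_cons, S_nil, hR, bs, f0, hτ, Function.comp]
      ring
    rw [e1] at h
    refine h.congr' ?_
    filter_upwards [hcof] with j hj
    congr 1
    apply el_congr
    intro s
    rw [hswapev b j hj]
    simp only [S_append, S_cons, S_nil, hτ, Function.comp]
    ring
  have hΩr : φ (x (q u)) (el (R ++ [((r : ℝ), τ u, true), (((d u - r : ℚ) : ℝ), τ u, false)]))
      = Ω r := by
    rw [hΩ, hk]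
  have hΩdd : φ (x (q u)) (el (R ++ [((r : ℝ), τ u, true), (((d u - r : ℚ) : ℝ), τ u, true)]))
      = Ω (d u : ℝ) := by
    rw [hΩd]
    congr 1
    apply el_congr
    intro s
    rw [S_split τ d (fl u) hu, hbs_fl, hk]
    simp only [S_append, S_cons, S_nil, fl, decide_true]
    rw [abs_of_pos hr0, abs_of_pos (by linarith : (0:ℝ) < (d u : ℝ) - r), abs_of_pos hdu]
    ring
  have hTj0 := hTj false
  have hTj1 := hTj true
  rw [hΩr] at hTj0
  rw [hΩdd] at hTj1
  -- the five conditions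
  have C1 : ∀ᶠ j in Fil t q u, ∀ v ∈ N, v ≠ u → A v <
      |φ (x (q v)) (el (R ++ [((r : ℝ), τ u, false), (((d u - r : ℚ) : ℝ), τ j, false)])) -
       φ (x (q v)) (el (bs τ (N.erase u) d (fl v) ++
      [((r : ℝ), τ u, false), (((d u - r : ℚ) : ℝ), τ j, false)]))| := by
    rw [Filter.eventually_all_finset]
    intro v hv
    by_cases hvu : v = u
    · exact Eventually.of_forall fun j h => absurd hvu h
    · have := ((hT0 v).sub (hTv v hvu)).abs.eventually_const_lt (hV.jump v hv)
      filter_upwards [this] with j hj _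
      exact hj
  have C2 : ∀ᶠ j in Fil t q u, A u <
      |φ (x (q u)) (el (R ++ [((r : ℝ), τ u, false), (((d u - r : ℚ) : ℝ), τ j, false)])) -
       φ (x (q u)) (el (R ++ [((r : ℝ), τ u, true), (((d u - r : ℚ) : ℝ), τ j, false)]))| := by
    have h := ((hT0 u).sub hTu).abs
    rw [← hΩ0] at h
    exact h.eventually_const_lt hrA
  have C3 : ∀ᶠ j in Fil t q u, a <
      |φ (x (q j)) (el (R ++ [((r : ℝ), τ u, false), (((d u - r : ℚ) : ℝ), τ j, false)])) -
       φ (x (q j)) (el (R ++ [((r : ℝ), τ u, false), (((d u - r : ℚ) : ℝ), τ j, true)]))| := by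
    refine (hTj0.sub hTj1).abs.eventually_const_lt ?_
    rw [ha]
    have := abs_pos.2 (sub_ne_zero.2 hne')
    linarith
  have C4 : ∀ᶠ j in Fil t q u, ∀ e ∈ E, A e.1 <
      |φ (x (q e.2)) (el (R ++ [((r : ℝ), τ u, false), (((d u - r : ℚ) : ℝ), τ j, false)])) -
       φ (x (q e.1)) (el (R ++ [((r : ℝ), τ u, false), (((d u - r : ℚ) : ℝ), τ j, false)]))| := by
    rw [Filter.eventually_all_finset]
    intro e he
    exact ((hT0 e.2).sub (hT0 e.1)).abs.eventually_const_lt (hV.edge e he)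
  have C5 : ∀ᶠ j in Fil t q u, A u <
      |φ (x (q j)) (el (R ++ [((r : ℝ), τ u, false), (((d u - r : ℚ) : ℝ), τ j, false)])) -
       φ (x (q u)) (el (R ++ [((r : ℝ), τ u, false), (((d u - r : ℚ) : ℝ), τ j, false)]))| := by
    have h := (hTj0.sub (hT0 u)).abs
    rw [← hΩ0, abs_sub_comm (Ω r)] at h
    exact h.eventually_const_lt hrA
  have := hne u
  obtain ⟨j, hjN, hjV, c1, c2, c3, c4, c5⟩ :=
    (hcof.and (hxt.and (C1.and (C2.and (C3.and (C4.and C5)))))).exists
  have hju : j ≠ u := fun h => hjN (h ▸ hu)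
  have hN0 : el (bs τ (insert j N) (Function.update (Function.update d u r) j (d u - r)) f0)
      = el (R ++ [((r : ℝ), τ u, false), (((d u - r : ℚ) : ℝ), τ j, false)]) := hnew f0 j hjN
  refine ⟨j, Function.update (Function.update d u r) j (d u - r), Function.update A j a,
    ⟨?_, ?_, ?_, ?_, ?_⟩, ?_, hjV⟩
  · intro v hv
    by_cases hvj : v = j
    · subst hvj
      rw [Function.update_self]
      have : (0:ℝ) < ((d u - r : ℚ) : ℝ) := by rw [hk]; linarith
      exact_mod_cast this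
    · rw [Function.update_of_ne hvj]
      have hvN : v ∈ N := Finset.mem_of_mem_insert_of_ne hv hvj
      by_cases hvu : v = u
      · subst hvu
        rw [Function.update_self]
        exact_mod_cast hr0
      · rw [Function.update_of_ne hvu]
        exact hV.pos v hvN
  · intro v hv
    by_cases hvj : v = j
    · subst hvj
      rw [Function.update_self]
      exact hapos
    · rw [Function.update_of_ne hvj]
      exact hV.amp v (Finset.mem_of_mem_insert_of_ne hv hvj)
  · intro v hv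
    rw [hN0, hnew (fl v) j hjN]
    by_cases hvj : v = j
    · subst hvj
      rw [Function.update_self]
      have e1 : bs τ (N.erase u) d (fl v) = R := by
        rw [hR]
        unfold bs
        apply List.map_congr_left
        intro i hi
        have : i ≠ v := fun h => hjN (h ▸ Finset.mem_of_mem_erase (Finset.mem_toList.1 hi))
        simp [fl, f0, this]
      have e2 : fl v u = false := by simp [fl, Ne.symm hju]
      have e3 : fl v v = true := by simp [fl]
      rw [e1, e2, e3]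
      exact c3
    · rw [Function.update_of_ne hvj]
      have hvN : v ∈ N := Finset.mem_of_mem_insert_of_ne hv hvj
      have e3 : fl v j = false := by simp [fl, Ne.symm hvj]
      rw [e3]
      by_cases hvu : v = u
      · subst hvu
        have e2 : fl v v = true := by simp [fl]
        rw [e2, hbs_fl]
        exact c2
      · have e2 : fl v u = false := by simp [fl, Ne.symm hvu]
        rw [e2]
        exact c1 v hvN hvu
  · intro e he
    rcases Finset.mem_insert.1 he with h | h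
    · rw [h]
      exact ⟨Finset.mem_insert_of_mem hu, Finset.mem_insert_self _ _⟩
    · exact ⟨Finset.mem_insert_of_mem (hV.mem e h).1, Finset.mem_insert_of_mem (hV.mem e h).2⟩
  · intro e he
    rw [hN0]
    rcases Finset.mem_insert.1 he with h | h
    · rw [h]
      simp only
      rw [Function.update_of_ne (Ne.symm hju)]
      exact c5
    · have : e.1 ≠ j := fun h' => hjN (by rw [← h']; exact (hV.mem e h).1)
      rw [Function.update_of_ne this]
      exact c4 e h
  · intro v hv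
    rw [Function.update_of_ne (fun h : v = j => hjN (h ▸ hv))]

end Q41.HL
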